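import Pool.Agent.Q38.SL.Base

/-!
# Project SL (helper284), job GPP: the zeros of the pattern polynomial

An extension of the proof of `t_GAP` of helper223 (`Pool/Agent/Q223/GE/GAP.lean`).
-/

set_option autoImplicit false

open Finset Polynomial ComplexConjugate Filter

namespace Pool.Agent.Q38.SL

open Pool.Agent.Q284.GE Pool.Agent.Q284.SL

/-- the exponential -/
noncomputable def E (x : ℝ) : ℂ := Complex.exp (x * Complex.I)

theorem E_norm (x : ℝ) : ‖E x‖ = 1 := Complex.norm_exp_ofReal_mul_I x

theorem E_deriv (x : ℝ) : HasDerivAt E (E x * Complex.I) x := by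
  have h1 : HasDerivAt (fun y : ℝ => ((y : ℂ) * Complex.I)) (Complex.I) x := by
    simpa using (Complex.ofRealCLM.hasDerivAt (x := x)).mul_const Complex.I
  exact h1.cexp

theorem poly_deriv (P : ℂ[X]) (x : ℝ) :
    HasDerivAt (fun y : ℝ => P.eval (E y)) (P.derivative.eval (E x) * (E x * Complex.I)) x :=
  HasDerivAt.comp x (P.hasDerivAt (E x)) (E_deriv x)

theorem E_cont : Continuous E := continuous_iff_continuousAt.mpr fun x => (E_deriv x).continuousAt

/-- Job GPP. -/
theorem t_GPP : S_GPP := by
  intro r h U A δ φ hr hh hδ hδ1 hφm hφp hUd hUz hUs hA0 hA hAne hAd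
  have hAE : ∀ x : ℝ, A.eval (E x) ≠ 0 := fun x => hAne _ (E_norm x).le
  have hD0 : (0 : ℝ) < h := by exact_mod_cast hh
  -- the logarithmic derivative
  set w : ℝ → ℂ := fun x => E x * A.derivative.eval (E x) / A.eval (E x) with hw
  have hwc : Continuous w := by
    refine Continuous.div (E_cont.mul (A.derivative.continuous.comp E_cont)) (A.continuous.comp E_cont) hAE
  have hwn : ∀ x, ‖w x‖ ≤ δ / 4 * h := by
    intro x
    rw [hw]
    simp only
    rw [norm_div, div_le_iff₀ (norm_pos_iff.mpr (hAE x))]
    exact hAd _ (E_norm x)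
  set Φ : ℝ → ℂ := fun x => ∫ t in (0 : ℝ)..x, w t with hΦ
  have hΦd : ∀ x, HasDerivAt Φ (w x) x := fun x => (hwc.integral_hasStrictDerivAt 0 x).hasDerivAt
  have hconst : ∀ x, A.eval (E x) = A.eval (E 0) * Complex.exp (Complex.I * Φ x) := by
    set G : ℝ → ℂ := fun x => A.eval (E x) * Complex.exp (-(Complex.I * Φ x)) with hG
    have hGd : ∀ x, HasDerivAt G 0 x := by
      intro x
      have a1 := poly_deriv A x
      have a2 : HasDerivAt (fun y => Complex.exp (-(Complex.I * Φ y)))
          (Complex.exp (-(Complex.I * Φ x)) * (-(Complex.I * w x))) x :=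
        (((hΦd x).const_mul Complex.I).neg).cexp
      have a3 := a1.mul a2
      have a4 : A.derivative.eval (E x) * (E x * Complex.I) * Complex.exp (-(Complex.I * Φ x)) +
          A.eval (E x) * (Complex.exp (-(Complex.I * Φ x)) * (-(Complex.I * w x))) = 0 := by
        have hne := hAE x
        have a5 : A.eval (E x) * w x = E x * A.derivative.eval (E x) := by
          rw [hw]
          simp only
          field_simp
        linear_combination (-(Complex.I * Complex.exp (-(Complex.I * Φ x)))) * a5
      rw [a4] at a3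
      exact a3
    have hGc : ∀ x, G x = G 0 := fun x =>
      is_const_of_deriv_eq_zero (fun y => (hGd y).differentiableAt) (fun y => (hGd y).deriv) x 0
    intro x
    have h3 := hGc x
    rw [hG] at h3
    simp only at h3
    have h4 : Φ 0 = 0 := by rw [hΦ]; simp
    rw [h4, mul_zero, neg_zero, Complex.exp_zero, mul_one] at h3
    rw [← h3, mul_assoc, ← Complex.exp_add, neg_add_cancel, Complex.exp_zero, mul_one]
  -- the constant
  set c0 : ℂ := conj (A.eval (E 0)) / A.eval (E 0) with hc0
  have hc0n : ‖c0‖ = 1 := by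
    rw [hc0, norm_div, RCLike.norm_conj, div_self (norm_ne_zero_iff.mpr (hAE 0))]
  obtain ⟨φ0, hφ0⟩ : ∃ φ0 : ℝ, c0 = Complex.exp (φ0 * Complex.I) := by
    refine ⟨c0.arg, ?_⟩
    have := Complex.norm_mul_exp_arg_mul_I c0
    rw [hc0n] at this
    simpa using this.symm
  set g : ℝ → ℝ := fun x => h * x - 2 * (Φ x).re + φ0 with hg
  have hgd : ∀ x, HasDerivAt g (h - 2 * (w x).re) x := by
    intro x
    have a1 : HasDerivAt (fun y => (Φ y).re) ((w x).re) x :=
      Complex.reCLM.hasFDerivAt.comp_hasDerivAt x (hΦd x)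
    have a2 := (((hasDerivAt_id' x).const_mul (h : ℝ)).sub (a1.const_mul 2)).add_const φ0
    rw [mul_one] at a2
    exact a2
  have hst : ∀ x : ℝ, (star h A).eval (E x) / A.eval (E x) = E (g x) := by
    intro x
    rw [star_circle hA0 hA _ (E_norm x), div_eq_iff (hAE x)]
    have e1 : conj (A.eval (E x)) = conj (A.eval (E 0)) * Complex.exp (-(Complex.I * conj (Φ x))) := by
      rw [hconst x, map_mul, ← Complex.exp_conj, map_mul, Complex.conj_I, neg_mul]
    have e2 : E (g x) = E x ^ h * Complex.exp (-(Complex.I * Φ x)) *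
        Complex.exp (-(Complex.I * conj (Φ x))) * c0 := by
      rw [hφ0, E, E, ← Complex.exp_nat_mul, ← Complex.exp_add, ← Complex.exp_add, ← Complex.exp_add]
      congr 1
      have e3 : Φ x + conj (Φ x) = ((2 * (Φ x).re : ℝ) : ℂ) := by
        rw [Complex.add_conj]
      rw [hg]
      push_cast at e3 ⊢
      linear_combination Complex.I * e3
    rw [e1, e2, hc0, hconst x]
    have e4 : Complex.exp (Complex.I * Φ x) * Complex.exp (-(Complex.I * Φ x)) = 1 := by
      rw [← Complex.exp_add, add_neg_cancel, Complex.exp_zero]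
    have h00 : A.eval (E 0) * (conj (A.eval (E 0)) / A.eval (E 0)) = conj (A.eval (E 0)) := by
      have h0 := hAE 0
      field_simp
    linear_combination (-((E x) ^ h * conj (A.eval (E 0)) *
      Complex.exp (-(Complex.I * conj (Φ x))))) * e4 - ((E x) ^ h *
      Complex.exp (-(Complex.I * conj (Φ x))) * (Complex.exp (Complex.I * Φ x) *
      Complex.exp (-(Complex.I * Φ x)))) * h00
  have hbg : ∀ x : ℝ, (pat r h U A).eval (E x) = A.eval (E x) ^ r * U.eval (E (g x)) := by
    intro x
    rw [pat_eval_div r h U A hUd _ (hAE x), hst x]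
  -- monotonicity
  have hre : ∀ x, |(w x).re| ≤ δ / 4 * h := fun x => (Complex.abs_re_le_norm _).trans (hwn x)
  have hlow : ∀ x, h * (1 - δ / 2) ≤ h - 2 * (w x).re := by
    intro x
    have := (abs_le.mp (hre x)).2
    nlinarith
  have hupp : ∀ x, h - 2 * (w x).re ≤ h * (1 + δ / 2) := by
    intro x
    have := (abs_le.mp (hre x)).1
    nlinarith
  have hhalf : (h : ℝ) / 2 ≤ h * (1 - δ / 2) := by nlinarith
  have hgc : Continuous g := continuous_iff_continuousAt.mpr fun x => (hgd x).continuousAt
  have hgm : StrictMono g := by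
    apply strictMono_of_deriv_pos
    intro x
    rw [(hgd x).deriv]
    linarith [hlow x]
  have hum : Monotone (fun x => g x - h / 2 * x) := by
    have hud : ∀ x, HasDerivAt (fun x => g x - h / 2 * x) (h - 2 * (w x).re - h / 2) x := by
      intro x
      have := (hgd x).sub ((hasDerivAt_id' x).const_mul ((h : ℝ) / 2))
      rw [mul_one] at this
      exact this
    apply monotone_of_deriv_nonneg
    · exact fun x => (hud x).differentiableAt
    · intro x
      rw [(hud x).deriv]
      linarith [hlow x]
  have htop : Tendsto g atTop atTop := by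
    have h3 : Tendsto (fun x : ℝ => g 0 + h / 2 * x) atTop atTop :=
      tendsto_atTop_add_const_left _ _ (tendsto_id.const_mul_atTop (by positivity))
    refine tendsto_atTop_mono' _ ?_ h3
    filter_upwards [eventually_ge_atTop (0 : ℝ)] with x hx
    have := hum hx
    simp only [mul_zero, sub_zero] at this
    linarith
  have hbot : Tendsto g atBot atBot := by
    have h3 : Tendsto (fun x : ℝ => g 0 + h / 2 * x) atBot atBot :=
      tendsto_atBot_add_const_left _ _ (tendsto_id.const_mul_atBot (by positivity))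
    refine tendsto_atBot_mono' _ ?_ h3
    filter_upwards [eventually_le_atBot (0 : ℝ)] with x hx
    have := hum hx
    simp only [mul_zero, sub_zero] at this
    linarith
  have hsurj : Function.Surjective g := hgc.surjective htop hbot
  choose θ hθ using fun k : ℤ => hsurj (φ k)
  refine ⟨θ, ?_, ?_, ?_, ?_⟩
  · intro i j hij
    rw [← hgm.lt_iff_lt, hθ, hθ]
    exact hφm hij
  · intro x
    show (pat r h U A).eval (E x) = 0 ↔ _
    rw [hbg x, mul_eq_zero, or_iff_right (pow_ne_zero _ (hAE x))]
    show U.eval (Complex.exp (g x * Complex.I)) = 0 ↔ _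
    rw [hUz]
    refine exists_congr fun k => ?_
    rw [← hθ k]
    exact hgm.injective.eq_iff
  · intro k hk
    have hz : U.eval (E (g (θ k))) = 0 := (hUz _).2 ⟨k, hθ k⟩
    have a1 := poly_deriv (pat r h U A) (θ k)
    have hk' : (pat r h U A).derivative.eval (E (θ k)) = 0 := hk
    rw [hk', zero_mul] at a1
    have a2 : HasDerivAt (fun y : ℝ => U.eval (E (g y)))
        ((h - 2 * (w (θ k)).re : ℝ) • (U.derivative.eval (E (g (θ k))) * (E (g (θ k)) * Complex.I))) (θ k) :=
      HasDerivAt.scomp (θ k) (poly_deriv U (g (θ k))) (hgd (θ k))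
    have a3 := ((poly_deriv A (θ k)).pow r).mul a2
    have a4 : (fun y : ℝ => (pat r h U A).eval (E y)) = fun y : ℝ => A.eval (E y) ^ r * U.eval (E (g y)) :=
      funext hbg
    rw [a4] at a1
    have a5 := a1.unique a3
    rw [hz, mul_zero, zero_add] at a5
    have h5 : (h - 2 * (w (θ k)).re : ℝ) ≠ 0 := by
      have := hlow (θ k)
      intro h0
      rw [h0] at this
      nlinarith
    have h6 : U.derivative.eval (E (g (θ k))) ≠ 0 := by
      have := hUs k
      rw [← hθ k] at this
      exact this
    have h7 : A.eval (E (θ k)) ^ r *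
        ((h - 2 * (w (θ k)).re : ℝ) • (U.derivative.eval (E (g (θ k))) * (E (g (θ k)) * Complex.I))) ≠ 0 :=
      mul_ne_zero (pow_ne_zero _ (hAE _)) (smul_ne_zero h5 (mul_ne_zero h6
        (mul_ne_zero (Complex.exp_ne_zero _) Complex.I_ne_zero)))
    exact h7 a5.symm
  · intro k
    have hlt : θ k < θ (k + 1) := by
      rw [← hgm.lt_iff_lt, hθ, hθ]
      exact hφm (by omega)
    obtain ⟨ξ, -, hξ⟩ := exists_hasDerivAt_eq_slope g (fun x => h - 2 * (w x).re) hlt hgc.continuousOn
      (fun x _ => hgd x)
    rw [hθ, hθ] at hξ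
    have hd : 0 < θ (k + 1) - θ k := by linarith
    have h7 : (h - 2 * (w ξ).re) * (θ (k + 1) - θ k) = φ (k + 1) - φ k := by
      have : (h - 2 * (w ξ).re) = (φ (k + 1) - φ k) / (θ (k + 1) - θ k) := hξ
      rw [this]; field_simp
    set y := (h - 2 * (w ξ).re) with hy
    set u := θ (k + 1) - θ k with hu
    have hy1 := hlow ξ
    have hy2 := hupp ξ
    rw [← h7]
    have e1 : (h : ℝ) * u - y * u = (h - y) * u := by ring
    rw [e1, abs_mul, abs_of_pos hd]
    have h8 : |(h : ℝ) - y| ≤ δ / 2 * h := by
      rw [abs_le]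
      constructor <;> nlinarith
    have h9 : δ / 2 * h ≤ δ * y := by nlinarith
    calc |(h : ℝ) - y| * u ≤ (δ * y) * u := mul_le_mul_of_nonneg_right (h8.trans h9) hd.le
      _ = _ := by ring

end Pool.Agent.Q38.SL
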