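import Pool.Agent.Q38.SL.Base

/-!
# Project SL (helper284), job PAT: substitution of a pattern
-/

set_option autoImplicit false

namespace Pool.Agent.Q38.SL

open Finset Polynomial ComplexConjugate
open Pool.Agent.Q284.GE Pool.Agent.Q284.SL

/-- the maximum principle -/
lemma star_lt {h : ℕ} {A : ℂ[X]} (hA0 : A.coeff 0 = 1) (hA : ∀ n : ℕ, h ≤ 2 * n → A.coeff n = 0)
    (hAz : ∀ z : ℂ, ‖z‖ ≤ 1 → A.eval z ≠ 0) (z : ℂ) (hz : ‖z‖ < 1) :
    ‖(star h A).eval z‖ < ‖A.eval z‖ := by
  obtain ⟨R, hR⟩ : ∃ R : ℂ[X], R = star h A := ⟨_, rfl⟩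
  rw [← hR]
  have hbd : ∀ z : ℂ, ‖z‖ = 1 → ‖R.eval z‖ = ‖A.eval z‖ := by
    intro z hz
    rw [hR, star_circle hA0 hA z hz, norm_mul, norm_pow, hz, one_pow, one_mul, RCLike.norm_conj]
  have hR0 : R.coeff 0 = 0 := by rw [hR]; exact star_coeff_zero hA0 hA
  have hRX : ∀ z : ℂ, R.eval z = z * R.divX.eval z := by
    intro z
    have h1 := congrArg (fun P : ℂ[X] => P.eval z) (divX_mul_X_add R)
    simp only [eval_add, eval_mul, eval_X, eval_C, hR0, add_zero] at h1
    rw [← h1]
    ring
  have hmax : ∀ z : ℂ, ‖z‖ ≤ 1 → ‖R.divX.eval z‖ ≤ ‖A.eval z‖ := by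
    intro z hz
    have hAne : ∀ w ∈ Metric.closedBall (0 : ℂ) 1, A.eval w ≠ 0 := by
      intro w hw
      rw [mem_closedBall_zero_iff] at hw
      exact hAz w hw
    have hd : DiffContOnCl ℂ (fun w : ℂ => R.divX.eval w / A.eval w) (Metric.ball (0 : ℂ) 1) := by
      apply DifferentiableOn.diffContOnCl
      rw [closure_ball (0 : ℂ) one_ne_zero]
      intro w hw
      exact ((R.divX.differentiable w).div (A.differentiable w) (hAne w hw)).differentiableWithinAt
    have h1 := Complex.norm_le_of_forall_mem_frontier_norm_le (C := 1) (Metric.isBounded_ball) hd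
      (fun w hw => by
        rw [frontier_ball (0 : ℂ) one_ne_zero, mem_sphere_zero_iff_norm] at hw
        have h2 := hbd w hw
        rw [hRX, norm_mul, hw, one_mul] at h2
        rw [norm_div, h2]
        exact div_self_le_one _)
      (by
        rw [closure_ball (0 : ℂ) one_ne_zero, mem_closedBall_zero_iff]
        exact hz)
    rw [norm_div, div_le_one (norm_pos_iff.2 (hAz z hz))] at h1
    exact h1
  have h1 : 0 < ‖A.eval z‖ := norm_pos_iff.2 (hAz z hz.le)
  rw [hRX, norm_mul]
  have h3 := hmax z hz.le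
  nlinarith [norm_nonneg z, norm_nonneg (R.divX.eval z)]

/-- Job PAT. -/
theorem t_PAT : S_PAT := by
  intro r h ε U A hr hh hε hU hA0 hA hAz
  have hε0 : ε ≠ 0 := by
    intro h
    rw [h, norm_zero] at hε
    norm_num at hε
  have hAd := deg_lt hA0 hA
  have hRd := star_deg hA
  have hUr : U.coeff r = ε := by
    have h1 := hU.fe 0 (Nat.zero_le _)
    rwa [Nat.sub_zero, hU.zero, map_one, mul_one] at h1
  have hUe : ∀ j, j ≤ r → U.coeff j = ε * conj (U.coeff (r - j)) := by
    intro j hj
    have h1 := hU.fe (r - j) (Nat.sub_le _ _)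
    rwa [Nat.sub_sub_self hj] at h1
  -- the degree
  have hterm : ∀ j, j ≤ r → (C (U.coeff j) * A ^ (r - j) * star h A ^ j).natDegree ≤
      (r - j) * A.natDegree + j * h := by
    intro j _
    refine (natDegree_mul_le).trans (add_le_add ?_ ?_)
    · refine (natDegree_C_mul_le _ _).trans ?_
      exact natDegree_pow_le
    · exact (natDegree_pow_le).trans (Nat.mul_le_mul_left _ hRd)
  have hle : ∀ j, j ≤ r → (r - j) * A.natDegree + j * h ≤ r * h := by
    intro j hj
    calc (r - j) * A.natDegree + j * h ≤ (r - j) * h + j * h := by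
          have : A.natDegree ≤ h := by omega
          gcongr
      _ = r * h := by rw [← add_mul]; congr 1; omega
  have hlt : ∀ j, j < r → (r - j) * A.natDegree + j * h < r * h := by
    intro j hj
    calc (r - j) * A.natDegree + j * h < (r - j) * h + j * h := by
          have h1 : A.natDegree < h := by omega
          have h2 : 0 < r - j := by omega
          have := Nat.mul_lt_mul_of_pos_left h1 h2
          omega
      _ = r * h := by rw [← add_mul]; congr 1; omega
  have hbdeg : (pat r h U A).natDegree ≤ r * h := by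
    unfold pat
    refine natDegree_sum_le_of_forall_le _ _ fun j hj => ?_
    have hj' : j ≤ r := Nat.lt_succ_iff.1 (Finset.mem_range.1 hj)
    exact (hterm j hj').trans (hle j hj')
  have hbtop : (pat r h U A).coeff (r * h) = ε := by
    unfold pat
    rw [finset_sum_coeff, Finset.sum_range_succ, Finset.sum_eq_zero, zero_add]
    · rw [Nat.sub_self, pow_zero, mul_one, coeff_C_mul, coeff_pow_of_natDegree_le hRd,
        star_coeff_top hA0 hA, one_pow, mul_one, hUr]
    · intro j hj
      have hj' : j < r := Finset.mem_range.1 hj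
      exact coeff_eq_zero_of_natDegree_lt ((hterm j hj'.le).trans_lt (hlt j hj'))
  have hbzero : (pat r h U A).coeff 0 = 1 := by
    have e0 : A.eval 0 = 1 := by rw [← coeff_zero_eq_eval_zero, hA0]
    have e1 : (star h A).eval 0 = 0 := by rw [← coeff_zero_eq_eval_zero, star_coeff_zero hA0 hA]
    rw [coeff_zero_eq_eval_zero, pat_eval, e0, e1, Finset.sum_range_succ', Finset.sum_eq_zero, zero_add]
    · rw [hU.zero]; simp
    · intro j _
      rw [zero_pow (Nat.succ_ne_zero j), mul_zero]
  -- the functional equation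
  have hbr : ∀ z : ℂ, z ≠ 0 → (pat r h U A).eval z =
      ε * (z ^ (r * h) * conj ((pat r h U A).eval (conj z)⁻¹)) := by
    intro z hz
    rw [pat_eval, pat_eval, map_sum, Finset.mul_sum, Finset.mul_sum, ← Finset.sum_range_reflect]
    refine Finset.sum_congr rfl fun j hj => ?_
    have hj' : j ≤ r := Nat.lt_succ_iff.1 (Finset.mem_range.1 hj)
    rw [show r + 1 - 1 - j = r - j by omega, show r - (r - j) = j by omega, hUe (r - j) (Nat.sub_le _ _),
      show r - (r - j) = j by omega, star_eval hA0 hA z hz]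
    have e1 := eval_star hA0 hA z hz
    rw [map_mul, map_mul, map_pow, map_pow]
    set a := A.eval z
    set b := conj ((star h A).eval (conj z)⁻¹)
    set c := conj (A.eval (conj z)⁻¹)
    rw [e1]
    have e2 : z ^ (r * h) = (z ^ h) ^ (r - j) * (z ^ h) ^ j := by
      rw [← pow_add, ← pow_mul]; congr 1
      rw [mul_comm]; congr 1; omega
    rw [e2, mul_pow, mul_pow]
    ring
  have hbpoly : pat r h U A = C ε * ((pat r h U A).map (starRingEnd ℂ)).reflect (r * h) := by
    refine eq_of_infinite_eval_eq _ _ ?_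
    have h1 : Set.Infinite ({0}ᶜ : Set ℂ) := (Set.finite_singleton 0).infinite_compl
    refine h1.mono fun z hz => ?_
    show (pat r h U A).eval z = _
    rw [eval_mul, eval_C, refl_eval _ _ hbdeg z hz]
    exact hbr z hz
  have hfe : ∀ k : ℕ, k ≤ r * h → (pat r h U A).coeff (r * h - k) = ε * conj ((pat r h U A).coeff k) := by
    intro k hk
    have h1 : (pat r h U A).coeff (r * h - k) =
        (C ε * ((pat r h U A).map (starRingEnd ℂ)).reflect (r * h)).coeff (r * h - k) :=
      congrArg (fun P : ℂ[X] => P.coeff (r * h - k)) hbpoly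
    rw [coeff_C_mul, coeff_reflect, coeff_map, revAt_le (Nat.sub_le _ _), Nat.sub_sub_self hk] at h1
    exact h1
  -- the roots
  have hin : ∀ z : ℂ, ‖z‖ < 1 → (pat r h U A).eval z ≠ 0 := by
    intro z hz h0
    have hz1 := hAz z hz.le
    rw [pat_eval_div r h U A hU.deg.le z hz1] at h0
    have h1 : U.eval ((star h A).eval z / A.eval z) = 0 := by
      rcases mul_eq_zero.1 h0 with h2 | h2
      · exact absurd h2 (pow_ne_zero _ hz1)
      · exact h2
    have h2 := hU.root _ h1
    have h3 := star_lt hA0 hA hAz z hz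
    rw [norm_div, div_eq_one_iff_eq (norm_ne_zero_iff.2 hz1)] at h2
    exact h3.ne h2
  refine ⟨natDegree_eq_of_le_of_coeff_ne_zero hbdeg (by rw [hbtop]; exact hε0), hbzero, hfe, ?_⟩
  intro z h0
  rcases lt_trichotomy ‖z‖ 1 with h1 | h1 | h1
  · exact absurd h0 (hin z h1)
  · exact h1
  · exfalso
    have hz0 : z ≠ 0 := by
      intro h2
      rw [h2, norm_zero] at h1
      norm_num at h1
    have h2 := hbr z hz0
    rw [h0] at h2
    have h3 : (pat r h U A).eval (conj z)⁻¹ = 0 := by
      have h3 : conj ((pat r h U A).eval (conj z)⁻¹) = 0 := by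
        rcases mul_eq_zero.1 h2.symm with h4 | h4
        · exact absurd h4 hε0
        · rcases mul_eq_zero.1 h4 with h5 | h5
          · exact absurd h5 (pow_ne_zero _ hz0)
          · exact h5
      rwa [map_eq_zero] at h3
    refine hin _ ?_ h3
    rw [norm_inv, RCLike.norm_conj]
    exact inv_lt_one_of_one_lt₀ h1

end Pool.Agent.Q38.SL
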