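import Pool.Agent.Q284.SL.Stm

/-!
# Project SL (helper284): basic facts on the polynomials `star h A` and `pat r h U A`

Adapted from the proof of `t_CIR` of helper150 (`Pool/Agent/Q150/GE/CIR.lean`).
-/

set_option autoImplicit false

namespace Pool.Agent.Q38.SL

open Finset Polynomial ComplexConjugate
open Pool.Agent.Q284.GE Pool.Agent.Q284.SL

lemma eval_conj (P : ℂ[X]) (w : ℂ) : (P.map (starRingEnd ℂ)).eval w = conj (P.eval (conj w)) := by
  rw [eval_map, ← Polynomial.eval₂_id (p := P), Polynomial.hom_eval₂]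
  simp

lemma refl_eval (P : ℂ[X]) (D : ℕ) (hD : P.natDegree ≤ D) (z : ℂ) (hz : z ≠ 0) :
    ((P.map (starRingEnd ℂ)).reflect D).eval z = z ^ D * conj (P.eval (conj z)⁻¹) := by
  let _ : Invertible (z⁻¹) := invertibleOfNonzero (inv_ne_zero hz)
  have h := Polynomial.eval₂_reflect_mul_pow (RingHom.id ℂ) (z⁻¹) D (P.map (starRingEnd ℂ))
    ((natDegree_map_le).trans hD)
  rw [invOf_eq_inv, inv_inv, eval₂_id, eval₂_id, eval_conj, map_inv₀] at h
  rw [← h, inv_pow]
  field_simp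

lemma star_eq (h : ℕ) (A : ℂ[X]) (hA : ∀ n : ℕ, h ≤ 2 * n → A.coeff n = 0) :
    star h A = (A.map (starRingEnd ℂ)).reflect h := by
  ext m
  unfold Pool.Agent.Q284.SL.star
  rw [finset_sum_coeff, coeff_reflect, coeff_map]
  simp only [coeff_C_mul, coeff_X_pow]
  rcases Nat.lt_or_ge h m with hm | hm
  · rw [revAt_eq_self_of_lt hm, hA m (by omega), map_zero]
    refine Finset.sum_eq_zero fun n _ => ?_
    rw [if_neg (by omega), mul_zero]
  · rw [revAt_le hm]
    by_cases h1 : h ≤ 2 * (h - m)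
    · rw [hA _ h1, map_zero]
      refine Finset.sum_eq_zero fun n hn => ?_
      rw [Finset.mem_filter, Finset.mem_range] at hn
      rw [if_neg (by omega), mul_zero]
    · rw [Finset.sum_eq_single (h - m)]
      · rw [if_pos (by omega), mul_one]
      · intro n hn hne
        rw [Finset.mem_filter, Finset.mem_range] at hn
        rw [if_neg (by omega), mul_zero]
      · intro hn
        exfalso
        apply hn
        rw [Finset.mem_filter, Finset.mem_range]
        omega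

lemma deg_lt {h : ℕ} {A : ℂ[X]} (hA0 : A.coeff 0 = 1) (hA : ∀ n : ℕ, h ≤ 2 * n → A.coeff n = 0) :
    2 * A.natDegree < h := by
  by_contra hcon
  have h1 := hA A.natDegree (by omega)
  have h2 : A = 0 := leadingCoeff_eq_zero.1 h1
  rw [h2, coeff_zero] at hA0
  exact one_ne_zero hA0.symm

lemma star_eval {h : ℕ} {A : ℂ[X]} (hA0 : A.coeff 0 = 1) (hA : ∀ n : ℕ, h ≤ 2 * n → A.coeff n = 0)
    (z : ℂ) (hz : z ≠ 0) : (star h A).eval z = z ^ h * conj (A.eval (conj z)⁻¹) := by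
  rw [star_eq h A hA]
  exact refl_eval A h (by have := deg_lt hA0 hA; omega) z hz

lemma eval_star {h : ℕ} {A : ℂ[X]} (hA0 : A.coeff 0 = 1) (hA : ∀ n : ℕ, h ≤ 2 * n → A.coeff n = 0)
    (z : ℂ) (hz : z ≠ 0) : A.eval z = z ^ h * conj ((star h A).eval (conj z)⁻¹) := by
  have h1 : (conj z)⁻¹ ≠ 0 := inv_ne_zero (by simpa using hz)
  rw [star_eval hA0 hA _ h1, map_inv₀, Complex.conj_conj, inv_inv, map_mul, Complex.conj_conj, map_pow,
    map_inv₀, Complex.conj_conj, ← mul_assoc, ← mul_pow, mul_inv_cancel₀ hz, one_pow, one_mul]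

lemma inv_conj_eq {z : ℂ} (hz : ‖z‖ = 1) : (conj z)⁻¹ = z := by
  rw [inv_eq_iff_eq_inv, Complex.inv_def, Complex.normSq_eq_norm_sq, hz]
  simp

lemma star_circle {h : ℕ} {A : ℂ[X]} (hA0 : A.coeff 0 = 1) (hA : ∀ n : ℕ, h ≤ 2 * n → A.coeff n = 0)
    (z : ℂ) (hz : ‖z‖ = 1) : (star h A).eval z = z ^ h * conj (A.eval z) := by
  have hz0 : z ≠ 0 := by
    intro h
    rw [h, norm_zero] at hz
    norm_num at hz
  rw [star_eval hA0 hA z hz0, inv_conj_eq hz]

lemma star_coeff_zero {h : ℕ} {A : ℂ[X]} (hA0 : A.coeff 0 = 1)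
    (hA : ∀ n : ℕ, h ≤ 2 * n → A.coeff n = 0) : (star h A).coeff 0 = 0 := by
  rw [star_eq h A hA, coeff_reflect, coeff_map, revAt_le (Nat.zero_le _), Nat.sub_zero, hA h (by omega),
    map_zero]

lemma star_coeff_top {h : ℕ} {A : ℂ[X]} (hA0 : A.coeff 0 = 1)
    (hA : ∀ n : ℕ, h ≤ 2 * n → A.coeff n = 0) : (star h A).coeff h = 1 := by
  rw [star_eq h A hA, coeff_reflect, coeff_map, revAt_le le_rfl, Nat.sub_self, hA0, map_one]

lemma star_deg {h : ℕ} {A : ℂ[X]} (hA : ∀ n : ℕ, h ≤ 2 * n → A.coeff n = 0) :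
    (star h A).natDegree ≤ h := by
  rw [natDegree_le_iff_coeff_eq_zero]
  intro n hn
  rw [star_eq h A hA, coeff_reflect, coeff_map, revAt_eq_self_of_lt hn, hA n (by omega), map_zero]

lemma pat_eval (r h : ℕ) (U A : ℂ[X]) (z : ℂ) : (pat r h U A).eval z =
    ∑ j ∈ range (r + 1), U.coeff j * A.eval z ^ (r - j) * (star h A).eval z ^ j := by
  unfold pat
  rw [eval_finset_sum]
  refine Finset.sum_congr rfl fun j _ => ?_
  simp

lemma pat_eval_div (r h : ℕ) (U A : ℂ[X]) (hU : U.natDegree ≤ r) (z : ℂ) (hz : A.eval z ≠ 0) :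
    (pat r h U A).eval z = A.eval z ^ r * U.eval ((star h A).eval z / A.eval z) := by
  rw [pat_eval, eval_eq_sum_range' (Nat.lt_succ_of_le hU), Finset.mul_sum]
  refine Finset.sum_congr rfl fun j hj => ?_
  have hj' : j ≤ r := Nat.lt_succ_iff.1 (Finset.mem_range.1 hj)
  have e1 : A.eval z ^ r = A.eval z ^ (r - j) * A.eval z ^ j := by
    rw [← pow_add]; congr 1; omega
  rw [e1, div_pow]
  field_simp

end Pool.Agent.Q38.SL
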